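import Pool.Agent.Helper104.PCV.Explicit

set_option autoImplicit false

open Polynomial Pool.Agent.W432.WB Pool.Agent.W432.HK Pool.Agent.Y227.RT

/-!
# Second order operators: explicit exceptional relations and an explicit density of primes

The operators have order two, any number of singular points, arbitrary accessory parameters and
arbitrary rational exponents. Let `m ≥ 1` be the number of the singular points with nonintegral
difference `θ x` of the exponents, and `C = (m + 1) ^ 2 * m ^ (m + 1)`. Then one of the following
holds: there is a combination `∑ j x * θ x`, with integers `j x` of absolute value at most `m`, not all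
zero, all even or all odd, whose denominator `D` is squarefree with `φ(D) < C`; or for at least a
proportion `1 / C` of the residue classes of primes modulo the common denominator `N` there is no full
basis of rational solutions modulo `p`. This is an explicit form, for order two, of the results
`TorsionCosets` and `StableDensity`, whose finite sets of relations and density come from compactness
arguments.

Proof. As for the result `ShortRelations` of the problem on connections we use the test function
`(∑ x, cos (π u x) - m cos (π / m)) * ∏ x, |∑ i, sin (π i / (m + 1)) exp (π i u x)| ^ 2` of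
`u = a * θ - μ`, where now `a` runs through the units modulo `N`; the sums over the units of the powers
of a root of unity of order `D` are `φ(N) μ(D) / φ(D)` (Ramanujan).
-/

namespace Pool.Agent.Results.MP_aa40d3_nt.ExplicitDensity

/-- Let `L = ∑ b k ∂ ^ k` be an operator of order two with integral polynomial coefficients which is
Fuchsian with finite singular points among the `m ≥ 1` distinct algebraic numbers `α j`, with rational
exponents `lam j l` at `α j` and `-phi l` at infinity, of common denominator `N`. Let `S` be the set of
the singular points (`none` is infinity) at which the difference `theta lam phi x` of the exponents is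
not an integer; assume that it is not empty, and let `C = (#S + 1) ^ 2 * #S ^ (#S + 1)`.

Then one of the following holds:

* there are integers `j x`, `x ∈ S`, not all zero, all even or all odd, with `|j x| ≤ #S`, such that
  the denominator `D` of `∑ x ∈ S, j x * theta lam phi x` is squarefree and `φ(D) < C`;
* there is a set `V` of residue classes modulo `N`, prime to `N`, with `φ(N) ≤ C * #V`, such that for
  all large primes `p` in these classes the reduction of `L` modulo `p` does not have a full basis of
  rational solutions; in particular the reductions do not have a full basis of rational solutions for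
  almost all primes. -/
theorem result {m : ℕ} (hm : 0 < m) (b : Fin 3 → ℤ[X]) (α : Fin m → AlgebraicClosure ℚ)
    (lam : Fin m → Fin 2 → ℚ) (phi : Fin 2 → ℚ) (N : ℕ) (hF : FuchsianWith b α lam phi)
    (hN : CommonDen lam phi N)
    (S : Finset (Option (Fin m))) (hS : ∀ x, x ∈ S ↔ ¬ ∃ z : ℤ, theta lam phi x = z)
    (hne : S.Nonempty) (C : ℕ) (hC : C = (S.card + 1) ^ 2 * S.card ^ (S.card + 1)) :
    (∃ j : Option (Fin m) → ℤ, (∃ x ∈ S, j x ≠ 0) ∧ (∀ x ∈ S, |j x| ≤ S.card) ∧
      ((∀ x ∈ S, Even (j x)) ∨ ∀ x ∈ S, Odd (j x)) ∧
        Squarefree (∑ x ∈ S, j x * theta lam phi x).den ∧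
        (∑ x ∈ S, j x * theta lam phi x).den.totient < C) ∨
    ((∃ (V : Finset (ZMod N)ˣ) (P₀ : ℕ), N.totient ≤ C * V.card ∧
      ∀ p : ℕ, P₀ < p → (∃ v ∈ V, ((p : ℕ) : ZMod N) = ((v : (ZMod N)ˣ) : ZMod N)) →
        ∀ _hp : Fact p.Prime, ¬ FullMod b p) ∧
      ¬ ∃ P : ℕ, ∀ p : ℕ, P < p → ∀ _hp : Fact p.Prime, FullMod b p) := by
  subst hC
  by_cases h : ∃ j : Option (Fin m) → ℤ, (∃ x ∈ S, j x ≠ 0) ∧ (∀ x ∈ S, |j x| ≤ S.card) ∧
      ((∀ x ∈ S, Even (j x)) ∨ ∀ x ∈ S, Odd (j x)) ∧
        Squarefree (∑ x ∈ S, j x * theta lam phi x).den ∧
        (∑ x ∈ S, j x * theta lam phi x).den.totient < (S.card + 1) ^ 2 * S.card ^ (S.card + 1)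
  · exact Or.inl h
  · right
    refine Pool.Agent.Helper104.PCV.op_units hm b α lam phi N hF hN S hS hne
      fun j h1 h2 h3 => ?_
    by_contra hcon
    push Not at hcon
    exact h ⟨j, h1, h2, h3, hcon.1, hcon.2⟩

end Pool.Agent.Results.MP_aa40d3_nt.ExplicitDensity
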