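import Pool.Agent.Helper104.ER.Op

set_option autoImplicit false

open Polynomial Pool.Agent.W432.WB Pool.Agent.W432.HK

/-!
# Operators of any order: explicit exceptional relations and an explicit density of primes

The operators have any order `n ≥ 2`, any number of singular points, arbitrary accessory parameters
and arbitrary rational exponents. Let `s` be the number of the points at which the exponents do not
agree modulo the integers, `K = 4 n ^ 6 s ^ 3` and `Q = 8 (K + 1) ^ (n s)`. Then either there is a
relation between the exponents with coefficients at most `2 K + 1` and a denominator `D` which is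
squarefree with `φ(D) < Q`, or for at least a proportion `1 / Q` of the residue classes of primes
modulo the common denominator `N` there is no full basis of rational solutions modulo `p`. The
results `TorsionCosets` and `StableDensity` give a finite set of relations and a density by
compactness arguments, which are not explicit; `ExplicitDensity` is the case of order two, with
better constants.

Proof. Let `z(a)` be the product over the singular points of the means of the numbers
`exp(2 π i a λ)`, `λ` an exponent at the point.

* If there is a full basis for arbitrarily large primes `p = -1 / a` modulo `N`, then the Weyl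
  inequalities (`Pool.Agent.W432.WB.main_field`) imply a degree inequality for the multiples by `a` of
  the exponents, and this implies `1 - Re z(a) ≤ n ^ 4 s (1 - |z(a)| ^ 2)`: if `|z(a)|` is near to one,
  the `a λ` are at each point near to some number, and these numbers have sum zero modulo the
  integers (they are not near to a nontrivial scalar matrix of determinant one).
* The moments `w_k`, the sums over the units `a` modulo `N` of `|z(a)| ^ (2 k)`, satisfy
  `w_K ≥ φ(N) (1 / (K + 1) ^ (n s) - 1 / Q)`, if there is no relation with row sums zero, by the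
  inequality of Cauchy and Schwarz for the histograms of families of `K` choice functions, since the
  sum over the units of the powers of a root of unity of order `D` is `φ(N) μ(D) / φ(D)` (Ramanujan).
  The sums of the `|z(a)| ^ (2 k) z(a)` are at most `φ(N) / Q` in absolute value, if there is no
  relation with row sums one.
* So `w_(k+1) ≤ (1 - 1 / C) w_k + (φ(N) / Q + 2 b) / C`, where `C = n ^ 4 s` and `b` is the number of the
  bad units. As `(1 - 1 / C) ^ K ≤ 1 / (2 (K + 1) ^ (n s))` we get `b ≥ φ(N) / Q`.
-/

namespace Pool.Agent.Results.MP_aa40d3_nt.ExplicitDensityAnyOrder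

/-- Let `L = ∑ b k ∂ ^ k` be an operator of order `n ≥ 2` with integral polynomial coefficients which
is Fuchsian with finite singular points among the `m ≥ 1` distinct algebraic numbers `α j`, with
rational exponents `lam (some j) l` at `α j` and `lam none l` at infinity, of common denominator `N`.
Let `S` be a nonempty set of the points (`none` is infinity) such that for `i` outside of `S` the
exponents at `i` agree modulo the integers. Let `K = 4 n ^ 6 (#S) ^ 3` and `Q = 8 (K + 1) ^ (n #S)`.

Then one of the following holds:

* there are integers `h i l` with the same sum `ε` over `l` for all points `i`, which is zero or one,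
  such that `∑ l, |h i l| ≤ 2 K + 1` for all `i` and such that the denominator `D` of
  `∑ i, ∑ l, h i l * lam i l` is squarefree with `φ(D) < Q`, and not one if `ε = 0`; if all prime
  factors of `N` are larger than `Q`, then `ε = 1` and `D = 1`, i.e. `∑ i, ∑ l, h i l * lam i l` is an
  integer;
* there is a set `V` of at least `φ(N) / Q` residue classes modulo `N`, prime to `N`, such that for
  all large primes `p` in these classes the reduction of `L` modulo `p` does not have a full basis of
  rational solutions; in particular the reductions do not have a full basis of rational solutions for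
  almost all primes. -/
theorem result {m n : ℕ} (hm : 0 < m) (hn : 2 ≤ n) (b : Fin (n + 1) → ℤ[X])
    (α : Fin m → AlgebraicClosure ℚ) (lam : Option (Fin m) → Fin n → ℚ) (N : ℕ) (hN : 0 < N)
    (hF : FuchsianWith b α (fun j => lam (some j)) (fun l => -lam none l))
    (hNlam : ∀ i l, ∃ z : ℤ, (N : ℚ) * lam i l = z)
    (S : Finset (Option (Fin m))) (hS0 : S.Nonempty)
    (hS : ∀ i ∉ S, ∀ l l', ∃ z : ℤ, lam i l - lam i l' = z) (K Q : ℕ)
    (hK : K = 4 * n ^ 6 * S.card ^ 3) (hQ : Q = 8 * (K + 1) ^ (n * S.card)) :
    (∃ (ε : ℤ) (h : Option (Fin m) → Fin n → ℤ) (D : ℕ), (ε = 0 ∨ ε = 1) ∧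
      (∀ i, ∑ l, h i l = ε) ∧ (∀ i, ∑ l, |h i l| ≤ 2 * K + 1) ∧
      D = (∑ i, ∑ l, (h i l : ℚ) * lam i l).den ∧ Squarefree D ∧ D.totient < Q ∧
      (ε = 0 → D ≠ 1) ∧ ((∀ p : ℕ, p.Prime → p ∣ N → Q < p) → ε = 1 ∧ D = 1)) ∨
    ((∃ (V : Finset (ZMod N)ˣ) (P₀ : ℕ), N.totient ≤ Q * V.card ∧
      ∀ p : ℕ, P₀ < p → (∃ v ∈ V, ((p : ℕ) : ZMod N) = ((v : (ZMod N)ˣ) : ZMod N)) →
        ∀ _hp : Fact p.Prime, ¬ FullMod b p) ∧
      ¬ ∃ P : ℕ, ∀ p : ℕ, P < p → ∀ _hp : Fact p.Prime, FullMod b p) := by
  rcases Pool.Agent.Helper104.ER.operators hm hn b α lam N hN hF hNlam S hS0 hS K Q hK hQ with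
    ⟨ε, h, h1, h2, h3, h4, h5, h6, h7⟩ | h
  · exact Or.inl ⟨ε, h, _, h1, h2, h3, rfl, h4, h5, h6, h7⟩
  · exact Or.inr h

end Pool.Agent.Results.MP_aa40d3_nt.ExplicitDensityAnyOrder
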