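import Pool.Agent.Q168.PC.Op

set_option autoImplicit false

/-!
# The `p`-curvature conjecture for operators whose exponents outside two points are progressions

Fuchsian operators over `ℚ` of any order `n`, with any number of singular points and of accessory
parameters, and with arbitrary exponents in `(1/N) ℤ` at two of the singular points (infinity may be
one of them). At all other singular points the exponents modulo `ℤ` are progressions (with arbitrary
multiplicities) with one common difference `d / N`, `d` prime to `N`; points with integral exponents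
are allowed (length zero). If there is no resonance (no sum of exponents, one at each point, is an
integer), the reduction of the operator lacks a full basis of rational solutions for all large primes
`p` congruent to `d` modulo `N`, or for all large primes congruent to `-d`.

For example: second order operators for which all but two of the differences of exponents are
`± d / N` modulo `ℤ`, or integers.

Proof: `Pool.Agent.Q168.PC`. The inequalities of the start library for the classes `a` and `-a`,
`a d = 1` modulo `N`, are lower and upper bounds for the sums of the remainders of the exponents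
multiplied by `a`; in this class the exponents outside of two points are in short intervals, and two
neighbouring choices of the shifts give contradicting bounds if there is no resonance.
-/

namespace Pool.Agent.Results.MP_aa40d3_nt.ProgressionsOutsideTwoPoints

open Finset Polynomial Pool.Agent.W432.WB

/-- Let `L = ∑ b k ∂ ^ k`, `k ≤ n`, `n > 0`, with `b k` in `ℤ[x]`, be Fuchsian with `m > 0` finite
singular points `α j` (`b k / b n = Q k / T ^ (n - k)`, `T = ∏ (x - α j)`,
`deg Q k ≤ (n - k)(m - 1)`), with the local exponents `E x l / N`, `l < n`, at the point `x`, which is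
`some j` for `α j` and `none` for infinity. Assume that no sum of exponents, one at each
point, is an integer. Let `d` be prime to `N`, let `P ≠ P'` be two of the points, and at the
other points let `E x l = c x + d * t x l` modulo `N` with `0 ≤ t x l ≤ L x`, where either the `t x l`
take all the values `0, ..., L x`, or at least their sums, one at each of these points, take all the
values between `0` and the sum of the `L x`.

Then for every large prime `p` with `p ≡ d (mod N)`, or for every large prime `p` with
`p ≡ -d (mod N)`, the reduction of the operator modulo `p` does not have a full basis of rational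
solutions. There are infinitely many such primes, so the open implication of Grothendieck's
conjecture holds for the operator. -/
theorem result : ∀ (m n : ℕ) (b : Fin (n + 1) → ℤ[X]) (α : Fin m → ℂ) (Q : Fin (n + 1) → ℂ[X])
    (N : ℕ) (E : Option (Fin m) → Fin n → ℤ) (d : ℤ) (P P' : Option (Fin m))
    (c : Option (Fin m) → ℤ) (t : Option (Fin m) → Fin n → ℕ) (L : Option (Fin m) → ℕ),
    0 < m → 0 < n → b (Fin.last n) ≠ 0 → IsFuchs b α Q →
    HasExps α Q (fun j l => (E (some j) l : ℚ) / N) (fun l => -(E none l : ℚ) / N) →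
    1 < N → (∀ κ : Option (Fin m) → Fin n, ¬ (N : ℤ) ∣ ∑ x, E x (κ x)) →
    IsCoprime d (N : ℤ) → P ≠ P' →
    (∀ x, x ≠ P → x ≠ P' → ∀ l, (N : ℤ) ∣ E x l - (c x + d * t x l) ∧ t x l ≤ L x) →
    ((∀ x, x ≠ P → x ≠ P' → ∀ j ≤ L x, ∃ l, t x l = j) ∨
      ∀ s ≤ ∑ x ∈ (univ.erase P).erase P', L x,
        ∃ κ : Option (Fin m) → Fin n, ∑ x ∈ (univ.erase P).erase P', t x (κ x) = s) →
    ((∃ P₀ : ℕ, ∀ p : ℕ, P₀ < p → (N : ℤ) ∣ p - d → ∀ _hp : Fact p.Prime, ¬ FullMod b p) ∨
      (∃ P₀ : ℕ, ∀ p : ℕ, P₀ < p → (N : ℤ) ∣ p + d → ∀ _hp : Fact p.Prime, ¬ FullMod b p)) ∧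
    (∀ K : ℕ, (∃ p : ℕ, K < p ∧ p.Prime ∧ (N : ℤ) ∣ p - d) ∧
      ∃ p : ℕ, K < p ∧ p.Prime ∧ (N : ℤ) ∣ p + d) ∧
    ((∃ K : ℕ, ∀ p : ℕ, K < p → ∀ _hp : Fact p.Prime, FullMod b p) → FullAlg b) := by
  intro m n b α Q N E d P P' c t L hm hn hb hF hE hN hres hd hPP ht hfull
  have h1 := Pool.Agent.Q168.PC.op_main hm hn b hb α Q hF N hN E hE hres d hd P P' hPP c t L ht
    hfull
  have hpr : ∀ d' : ℤ, IsCoprime d' (N : ℤ) → ∀ K : ℕ, ∃ p : ℕ, K < p ∧ p.Prime ∧
      (N : ℤ) ∣ p - d' := by
    intro d' hd' K
    obtain ⟨u, w, huw⟩ := hd'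
    have hu : IsCoprime (-u) (N : ℤ) := ⟨-d', w, by linear_combination huw⟩
    obtain ⟨p, h1, h2, k, hk⟩ := exists_prime_class (show 0 < N by omega) hu K
    exact ⟨p, h1, h2, -(d' * k) + w * p, by linear_combination (-d') * hk - (p : ℤ) * huw⟩
  have hpr' : ∀ K : ℕ, ∃ p : ℕ, K < p ∧ p.Prime ∧ (N : ℤ) ∣ p + d := by
    intro K
    obtain ⟨p, h1, h2, h3⟩ := hpr (-d) hd.neg_left K
    exact ⟨p, h1, h2, by simpa using h3⟩
  refine ⟨h1, fun K => ⟨hpr d hd K, hpr' K⟩, ?_⟩
  rintro ⟨K, hK⟩
  exfalso
  rcases h1 with ⟨P₀, h⟩ | ⟨P₀, h⟩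
  · obtain ⟨p, hp1, hp2, hp3⟩ := hpr d hd (max P₀ K)
    have hp : Fact p.Prime := ⟨hp2⟩
    exact h p (lt_of_le_of_lt (le_max_left _ _) hp1) hp3 hp
      (hK p (lt_of_le_of_lt (le_max_right _ _) hp1) hp)
  · obtain ⟨p, hp1, hp2, hp3⟩ := hpr' (max P₀ K)
    have hp : Fact p.Prime := ⟨hp2⟩
    exact h p (lt_of_le_of_lt (le_max_left _ _) hp1) hp3 hp
      (hK p (lt_of_le_of_lt (le_max_right _ _) hp1) hp)

end Pool.Agent.Results.MP_aa40d3_nt.ProgressionsOutsideTwoPoints
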