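import Pool.Agent.Q168.PC.TwoFin

set_option autoImplicit false

/-!
# The `p`-curvature conjecture in order two with two values of the exponent differences

Fuchsian operators over `ℚ` of order two, with any number of singular points and all accessory
parameters. Modulo `ℤ` and up to the sign the difference of the two exponents is `d1 / N` at `r`
points, `d2 / N` at `s` points (infinity may be one of them), and an integer at the other singular
points, with a prime number `N > 2 r s (r + s)`. If there is no resonance (no sum of exponents, one at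
each point, is an integer), there is a residue class modulo `N` such that for all large primes of the
class the reduction of the operator lacks a full basis of rational solutions.

Proof: `Pool.Agent.Q168.PC`. Let `a` be prime to `N` and let `y x l = a E x l` modulo `N`. If all the
sums of the `y x l`, one at each point, are strictly between two neighbouring multiples of `N`, the Weyl
inequalities of the start library fail in the class `a`. For differences with two values this asks
for a vector `(X, Y) = a (d1, d2)` modulo `N` with `r |X| + s |Y| < N` and with `r X + s Y` odd, which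
exists by Minkowski's theorem on short vectors, unless there is a resonance.
-/

namespace Pool.Agent.Results.MP_aa40d3_nt.TwoDifferences

open Finset Polynomial Pool.Agent.W432.WB

/-- Let `L = b 2 ∂ ^ 2 + b 1 ∂ + b 0`, with `b k` in `ℤ[x]`, be Fuchsian with `m > 0` finite
singular points `α j` (`b k / b 2 = Q k / T ^ (2 - k)`, `T = ∏ (x - α j)`,
`deg Q k ≤ (2 - k)(m - 1)`), with the local exponents `E x l / N`, `l = 0, 1`, at the point `x`, which
is `some j` for `α j` and `none` for infinity. Assume that no sum of exponents, one at each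
point, is an integer. Let `N` be a prime number, and let `E x 1 - E x 0` be `± d1` modulo `N`
for `x` in `G1`, `± d2` modulo `N` for `x` in `G2`, and zero modulo `N` at the other points, where `d1`,
`d2` are not divisible by `N`, the sets `G1`, `G2` are disjoint and nonempty, and
`N > 2 r s (r + s)` for the numbers `r`, `s` of their elements.

Then there is a residue class modulo `N`, containing infinitely many primes, such that for all large
primes in the class the reduction of the operator does not have a full basis of rational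
solutions; so the open implication of Grothendieck's conjecture holds for the operator. -/
theorem result : ∀ (m : ℕ) (b : Fin 3 → ℤ[X]) (α : Fin m → ℂ) (Q : Fin 3 → ℂ[X])
    (N : ℕ) (E : Option (Fin m) → Fin 2 → ℤ) (d1 d2 : ℤ) (G1 G2 : Finset (Option (Fin m))),
    0 < m → b (Fin.last 2) ≠ 0 → IsFuchs b α Q →
    HasExps α Q (fun j l => (E (some j) l : ℚ) / N) (fun l => -(E none l : ℚ) / N) →
    N.Prime → (∀ κ : Option (Fin m) → Fin 2, ¬ (N : ℤ) ∣ ∑ x, E x (κ x)) →
    ¬ (N : ℤ) ∣ d1 → ¬ (N : ℤ) ∣ d2 → Disjoint G1 G2 → G1.Nonempty → G2.Nonempty →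
    2 * G1.card * G2.card * (G1.card + G2.card) < N →
    (∀ x ∈ G1, (N : ℤ) ∣ E x 1 - E x 0 - d1 ∨ (N : ℤ) ∣ E x 1 - E x 0 + d1) →
    (∀ x ∈ G2, (N : ℤ) ∣ E x 1 - E x 0 - d2 ∨ (N : ℤ) ∣ E x 1 - E x 0 + d2) →
    (∀ x, x ∉ G1 → x ∉ G2 → (N : ℤ) ∣ E x 1 - E x 0) →
    (∃ a : ℤ, IsCoprime a (N : ℤ) ∧
      (∃ P₀ : ℕ, ∀ p : ℕ, P₀ < p → (N : ℤ) ∣ a * p + 1 → ∀ _hp : Fact p.Prime, ¬ FullMod b p) ∧
      ∀ K : ℕ, ∃ p : ℕ, K < p ∧ p.Prime ∧ (N : ℤ) ∣ a * p + 1) ∧
    ((∃ K : ℕ, ∀ p : ℕ, K < p → ∀ _hp : Fact p.Prime, FullMod b p) → FullAlg b) := by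
  intro m b α Q N E d1 d2 G1 G2 hm hb hF hE hN hres hd1 hd2 hG hG1 hG2 hbig h1 h2 h0
  have hN1 : 1 < N := hN.one_lt
  have hN2 : N ≠ 2 := by
    rintro rfl
    have e1 := hG1.card_pos
    have e2 := hG2.card_pos
    nlinarith [Nat.mul_le_mul e1 e2]
  have hsum := Pool.Agent.Q168.PC.fuchs_dvd hm (by norm_num) b α Q hF N hN.pos E hE
  obtain ⟨a, y, c, ha, hy, hc⟩ := Pool.Agent.Q168.PC.lifts_two hN hN2 E hsum hres G1 G2 hG hG1 hG2
    hbig hd1 hd2 h1 h2 h0
  have ha' : IsCoprime a (N : ℤ) :=
    (isCoprime_comm.1 ((Prime.coprime_iff_not_dvd (Nat.prime_iff_prime_int.1 hN)).2 ha))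
  have hbad := Pool.Agent.Q168.PC.bad_op hm (by norm_num) b hb α Q hF N hN1 E hE hres a ha' y c
    hy hc
  have hpr : ∀ K : ℕ, ∃ p : ℕ, K < p ∧ p.Prime ∧ (N : ℤ) ∣ a * p + 1 := fun K =>
    exists_prime_class hN.pos ha' K
  refine ⟨⟨a, ha', hbad, hpr⟩, ?_⟩
  rintro ⟨K, hK⟩
  exfalso
  obtain ⟨P₀, h⟩ := hbad
  obtain ⟨p, hp1, hp2, hp3⟩ := hpr (max P₀ K)
  have hp : Fact p.Prime := ⟨hp2⟩
  exact h p (lt_of_le_of_lt (le_max_left _ _) hp1) hp3 hp
    (hK p (lt_of_le_of_lt (le_max_right _ _) hp1) hp)

end Pool.Agent.Results.MP_aa40d3_nt.TwoDifferences
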